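import Mathlib
import Pool.Agent.U946.DiamondBridgeOrd
import Pool.Agent.Helper292.ForceCH

/-!
# Consistently, some minimally generated Boolean algebra is Nikodym and not strongly Nikodym

The forcing language is the one of `Helper292.ForceCH`: a sentence is the set of the conditions
which force it; `DiamondHolds P` is the translation of `PlainDiamond`.
-/

set_option autoImplicit false

namespace Pool.Agent.Results.MP_a0ad85_lc.ForcedCounterexample

open Cardinal Pool.Agent.Helper292.ForceCH Pool.Agent.U946
open Pool.Agent.Results.MP_a0ad85_lc.DiamondCounterexample (MinimallyGenerated NikodymProperty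
  StrongNikodymProperty)

/-- (1) Some forcing notion forces that `ω₁` is preserved and that diamond holds. (2) Diamond implies
that there is an infinite minimally generated Boolean algebra with the Nikodym property and without
the strong Nikodym property. -/
theorem result :
    (∃ (P : Type) (_ : Preorder P), Nonempty P ∧ ∀ p : P,
      p ∈ OmegaOnePreserved P ∧ p ∈ DiamondHolds P) ∧
    (PlainDiamond → ∃ (B : Type) (_ : BooleanAlgebra B), Infinite B ∧
      MinimallyGenerated B ∧ NikodymProperty B ∧ ¬ StrongNikodymProperty B) := by
  refine ⟨?_, fun h => DiamondCounterexample.result (diamond_ord_of_plain h)⟩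
  · obtain ⟨P, i, h1, h2⟩ := exists_forcing
    exact ⟨P, i, h1, fun p => ⟨(h2 p).1, (h2 p).2.1⟩⟩

end Pool.Agent.Results.MP_a0ad85_lc.ForcedCounterexample
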